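import Pool.Agent.H34.CGS.Stmts

set_option autoImplicit false

noncomputable section

open Filter
open scoped Topology

namespace Pool.CGS

open Pool.CGR

namespace DVEaux

theorem ev_mulLeft {α A : Type} [Ring A] [Algebra ℂ A] (x : α → A) (w : List α) :
    ev (fun j => (LinearMap.mulLeft ℂ (x j) : Module.End ℂ A)) w =
      (LinearMap.mulLeft ℂ (ev x w) : Module.End ℂ A) := by
  induction w with
  | nil =>
    refine LinearMap.ext fun a => ?_
    simp [ev]
  | cons j w ih =>
    have h1 : ev (fun j => (LinearMap.mulLeft ℂ (x j) : Module.End ℂ A)) (j :: w) =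
        (LinearMap.mulLeft ℂ (x j) : Module.End ℂ A) *
          ev (fun j => (LinearMap.mulLeft ℂ (x j) : Module.End ℂ A)) w := by
      simp [ev]
    have h2 : ev x (j :: w) = x j * ev x w := by simp [ev]
    rw [h1, h2, ih]
    refine LinearMap.ext fun a => ?_
    simp

end DVEaux

theorem dve_thm : DVEStmt := by
  intro α A _ _ _ τ x i w
  unfold dq dv
  rw [LinearMap.sum_apply, map_sum]
  refine Finset.sum_congr rfl fun k _ => ?_
  by_cases h : w[k]? = some i
  · rw [if_pos h, if_pos h, DVEaux.ev_mulLeft, DVEaux.ev_mulLeft]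
    simp only [ee, Module.End.mul_apply, LinearMap.mulLeft_apply, LinearMap.smulRight_apply,
      mul_one, map_smul, smul_eq_mul]
    ring
  · rw [if_neg h, if_neg h]
    simp

end Pool.CGS
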